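import Mathlib
import Pool.Agent.V11175.Sh9

/-!
# Local identities in the homogeneous shuffle algebra

One-parameter family of commutation relations between a run and a letter.
-/

set_option autoImplicit false
set_option linter.unusedSectionVars false

namespace Pool.Agent.V11307.MT

open Pool.Agent.V11175.Sh Pool.Agent.V11175.Sh.Sh Pool.Agent.V11175.Sh.H

section loc

variable {K : Type} [CommRing K]

/-- the linear form `x₂ - s x₁` -/
def ka (s : K) (x : K × K) : K := x.2 - s * x.1
/-- the linear form `s x₂ + (1 - s) x₁` -/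
def ke (s : K) (x : K × K) : K := s * x.2 + (1 - s) * x.1
/-- the linear form `x₁ + (s - 1) x₂` -/
def kb (s : K) (x : K × K) : K := x.1 + (s - 1) * x.2

lemma l2 (g h : K × K → K) : Len 2 (t g * t h : H K) := (Len.t _).mul (Len.t _)
lemma l3 (g h k : K × K → K) : Len 3 (t g * (t h * t k) : H K) := (Len.t _).mul ((Len.t _).mul (Len.t _))

lemma N0 (g : K × K → K) : (t (fun x => x.2 * g x) * t (fun x => x.1 * g x) : H K) =
    t (fun x => x.1 * g x) * t (fun x => x.1 * g x) + t (fun x => x.2 * g x) * t (fun x => x.2 * g x) := by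
  apply Len.ext2 (l2 _ _) ((l2 _ _).add (l2 _ _))
  intro x y
  rw [Sh.add_apply, tt_apply, tt_apply, tt_apply]
  simp only [fh]
  ring

lemma L1 (s : K) (g : K × K → K) : (t (fun x => ka s x * g x) * t (fun x => x.1 * g x) : H K) =
    t (fun x => x.2 * g x) * t (fun x => ke s x * g x) := by
  apply Len.ext2 (l2 _ _) (l2 _ _)
  intro x y
  rw [tt_apply, tt_apply]
  simp only [fh, ka, ke]
  ring

lemma L1' (s : K) (g : K × K → K) : (t (fun x => kb s x * g x) * t (fun x => x.1 * g x) : H K) =
    - (t (fun x => x.2 * g x) * t (fun x => ka s x * g x)) := by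
  apply Len.ext2 (l2 _ _) ((l2 _ _).neg)
  intro x y
  rw [Sh.neg_apply, tt_apply, tt_apply]
  simp only [fh, ka, kb]
  ring

lemma L2 (s : K) (g : K × K → K) : (t (fun x => kb s x * g x) * t (fun x => ke s x * g x) : H K) =
    - (t (fun x => ka s x * g x) * t (fun x => ka s x * g x)) := by
  apply Len.ext2 (l2 _ _) ((l2 _ _).neg)
  intro x y
  rw [Sh.neg_apply, tt_apply, tt_apply]
  simp only [fh, ka, kb, ke]
  ring

lemma L3 (s : K) (g : K × K → K) :
    (t (fun x => x.2 * g x) * t (fun x => ke s x * g x) + s • (t (fun x => ke s x * g x) * t (fun x => x.2 * g x))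
      - t (fun x => ke s x * g x) * t (fun x => ke s x * g x) : H K) =
    (1 - s + s ^ 2) • (t (fun x => x.2 * g x) * t (fun x => x.2 * g x)) := by
  apply Len.ext2 (((l2 _ _).add ((l2 _ _).smul _)).sub (l2 _ _)) ((l2 _ _).smul _)
  intro x y
  rw [Sh.sub_apply, Sh.add_apply, Sh.smul_apply, Sh.smul_apply, tt_apply, tt_apply, tt_apply, tt_apply]
  simp only [fh, ke]
  ring

lemma C0 (g h : K × K → K) : (t g * (t g * t h) + t g * (t h * t g) + t h * (t g * t g) : H K) = 0 := by
  apply Len.ext3 (((l3 _ _ _).add (l3 _ _ _)).add (l3 _ _ _)) Len.zero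
  intro x y z
  rw [Sh.add_apply, Sh.add_apply, ttt_apply, ttt_apply, ttt_apply, Sh.zero_apply]
  simp only [fh]
  ring

/-- the three letter identity -/
lemma E0 (p h : K × K → K) :
    (t (fun x => x.2 * p x) * (t (fun x => x.2 * h x) * t (fun x => x.2 * h x))
      + t (fun x => x.2 * h x) * (t (fun x => x.2 * p x) * t (fun x => x.1 * h x))
      - t (fun x => x.2 * h x) * (t (fun x => x.1 * p x) * t (fun x => x.1 * h x))
      - t (fun x => x.1 * h x) * (t (fun x => x.1 * h x) * t (fun x => x.1 * p x)) : H K) = 0 := by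
  apply Len.ext3 ((((l3 _ _ _).add (l3 _ _ _)).sub (l3 _ _ _)).sub (l3 _ _ _)) Len.zero
  intro x y z
  rw [Sh.sub_apply, Sh.sub_apply, Sh.add_apply, ttt_apply, ttt_apply, ttt_apply, ttt_apply, Sh.zero_apply]
  simp only [fh]
  ring

end loc

end Pool.Agent.V11307.MT
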