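import Mathlib
import Pool.Agent.V11307.MT.F1

/-!
# Commutation of a run with letters
-/

set_option autoImplicit false
set_option linter.unusedSectionVars false

namespace Pool.Agent.V11307.MT

open Pool.Agent.V11175.Sh Pool.Agent.V11175.Sh.Sh Pool.Agent.V11175.Sh.H

section gen

variable {K : Type} [CommRing K]

lemma tc {g h : K × K → K} (e : ∀ x, g x = h x) : (t g : H K) = t h := by rw [funext e]

lemma Mc {g h : K × K → K} (e : ∀ x, g x = h x) (a : H K) : M g a = M h a := by rw [funext e]

lemma rhoS (g : K × K → K) (m : ℕ) : (M g (rho (m + 1)) : H K) =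
    M (fun x => x.2 * g x) (rho m) * t (fun x => x.1 ^ m * g x) := by
  rw [rho, map_mul, G, M_M, th, M_t]
  congr 1
  · exact Mc (fun x => by ring) _
  · exact tc fun x => by simp [mul_comm]

lemma M_rho0 (g : K × K → K) : (M g (rho 0) : H K) = 1 := by rw [rho, map_one]

/-- the first ladder -/
lemma lad (s : K) (m : ℕ) : ∀ g : K × K → K,
    (t (fun x => x.2 ^ m * g x) * M (fun x => ke s x * g x) (rho m) : H K) =
      M (fun x => ka s x * g x) (rho m) * t (fun x => x.1 ^ m * g x) := by
  induction m with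
  | zero =>
    intro g
    rw [M_rho0, M_rho0, one_mul, mul_one]
    exact tc fun x => by simp
  | succ m ih =>
    intro g
    have h1 := ih (fun x => x.2 * g x)
    have h2 := L1 s (fun x => x.1 ^ m * g x)
    rw [rhoS, rhoS]
    rw [Mc (h := fun x => ke s x * (x.2 * g x)) (fun x => by ring),
      Mc (g := fun x => x.2 * (ka s x * g x)) (h := fun x => ka s x * (x.2 * g x)) (fun x => by ring)]
    rw [tc (g := fun x => x.2 ^ (m + 1) * g x) (h := fun x => x.2 ^ m * (x.2 * g x)) (fun x => by ring),
      ← mul_assoc, h1, mul_assoc, mul_assoc]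
    congr 1
    rw [tc (g := fun x => x.1 ^ m * (x.2 * g x)) (h := fun x => x.2 * (x.1 ^ m * g x)) (fun x => by ring),
      tc (g := fun x => x.1 ^ m * (ke s x * g x)) (h := fun x => ke s x * (x.1 ^ m * g x)) (fun x => by ring),
      tc (g := fun x => x.1 ^ m * (ka s x * g x)) (h := fun x => ka s x * (x.1 ^ m * g x)) (fun x => by ring),
      tc (g := fun x => x.1 ^ (m + 1) * g x) (h := fun x => x.1 * (x.1 ^ m * g x)) (fun x => by ring), h2]

/-- the second ladder -/
lemma lad' (s : K) (m : ℕ) : ∀ g : K × K → K,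
    (M (fun x => kb s x * g x) (rho m) * t (fun x => x.1 ^ m * g x) : H K) =
      (-1 : K) ^ m • (t (fun x => x.2 ^ m * g x) * M (fun x => ka s x * g x) (rho m)) := by
  induction m with
  | zero =>
    intro g
    rw [M_rho0, M_rho0, one_mul, mul_one, pow_zero, one_smul]
    exact tc fun x => by simp
  | succ m ih =>
    intro g
    have h1 := ih (fun x => x.2 * g x)
    have h2 := L1' s (fun x => x.1 ^ m * g x)
    rw [rhoS, rhoS]
    rw [Mc (g := fun x => x.2 * (ka s x * g x)) (h := fun x => ka s x * (x.2 * g x)) (fun x => by ring),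
      Mc (g := fun x => x.2 * (kb s x * g x)) (h := fun x => kb s x * (x.2 * g x)) (fun x => by ring)]
    rw [mul_assoc,
      tc (g := fun x => x.1 ^ m * (kb s x * g x)) (h := fun x => kb s x * (x.1 ^ m * g x)) (fun x => by ring),
      tc (g := fun x => x.1 ^ (m + 1) * g x) (h := fun x => x.1 * (x.1 ^ m * g x)) (fun x => by ring), h2,
      tc (g := fun x => x.2 * (x.1 ^ m * g x)) (h := fun x => x.1 ^ m * (x.2 * g x)) (fun x => by ring),
      tc (g := fun x => ka s x * (x.1 ^ m * g x)) (h := fun x => x.1 ^ m * (ka s x * g x)) (fun x => by ring),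
      tc (g := fun x => x.2 ^ (m + 1) * g x) (h := fun x => x.2 ^ m * (x.2 * g x)) (fun x => by ring),
      mul_neg, ← mul_assoc, h1, smul_mul_assoc, pow_succ, mul_neg_one, neg_smul, mul_assoc]

/-- local form of the commutation of a quadratic element with a letter -/
lemma comm1 (p h : K × K → K) :
    (((t (fun x => x.2 * p x) - t (fun x => x.1 * p x)) * t (fun x => x.2 * h x) -
        t (fun x => x.2 * h x) * t (fun x => x.1 * p x)) * t (fun x => x.2 * h x) : H K) =
    - (t (fun x => x.2 * h x) * ((t (fun x => x.2 * p x) - t (fun x => x.1 * p x)) * t (fun x => x.1 * h x) -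
        t (fun x => x.1 * h x) * t (fun x => x.1 * p x))) := by
  have h1 := E0 p h
  have h2 := C0 (fun x => x.2 * h x) (fun x => x.1 * p x)
  have h3 := N0 h
  set A : H K := t (fun x => x.2 * p x)
  set A1 : H K := t (fun x => x.1 * p x)
  set Y : H K := t (fun x => x.2 * h x)
  set Z : H K := t (fun x => x.1 * h x)
  have key : ((A - A1) * Y - Y * A1) * Y + Y * ((A - A1) * Z - Z * A1) =
      (A * (Y * Y) + Y * (A * Z) - Y * (A1 * Z) - Z * (Z * A1)) -
      (Y * (Y * A1) + Y * (A1 * Y) + A1 * (Y * Y)) - (Y * Z - (Z * Z + Y * Y)) * A1 := by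
    noncomm_ring
  rw [h1, h2, h3] at key
  rw [eq_neg_iff_add_eq_zero, key]
  simp

/-- commutation of a quadratic element with a run -/
lemma comm (m : ℕ) : ∀ (p h : K × K → K),
    (((t (fun x => x.2 * p x) - t (fun x => x.1 * p x)) * t (fun x => x.2 ^ m * h x) -
        t (fun x => x.2 ^ m * h x) * t (fun x => x.1 * p x)) * M (fun x => x.2 * h x) (rho m) : H K) =
    (-1 : K) ^ m • (M (fun x => x.2 * h x) (rho m) *
      ((t (fun x => x.2 * p x) - t (fun x => x.1 * p x)) * t (fun x => x.1 ^ m * h x) -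
        t (fun x => x.1 ^ m * h x) * t (fun x => x.1 * p x))) := by
  induction m with
  | zero =>
    intro p h
    rw [M_rho0, one_mul, mul_one, pow_zero, one_smul]
    rw [tc (g := fun x => x.2 ^ 0 * h x) (h := fun x => x.1 ^ 0 * h x) (fun x => by simp)]
  | succ m ih =>
    intro p h
    have h1 := ih p (fun x => x.2 * h x)
    have h2 := comm1 p (fun x => x.1 ^ m * h x)
    rw [rhoS]
    rw [tc (g := fun x => x.2 ^ (m + 1) * h x) (h := fun x => x.2 ^ m * (x.2 * h x)) (fun x => by ring),
      ← mul_assoc, h1, smul_mul_assoc, mul_assoc,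
      tc (g := fun x => x.1 ^ m * (x.2 * h x)) (h := fun x => x.2 * (x.1 ^ m * h x)) (fun x => by ring),
      tc (g := fun x => x.1 ^ (m + 1) * h x) (h := fun x => x.1 * (x.1 ^ m * h x)) (fun x => by ring), h2,
      mul_neg, smul_neg, pow_succ, mul_neg_one, neg_smul, mul_assoc]

end gen

end Pool.Agent.V11307.MT
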