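import Mathlib
import Pool.Agent.V11307.MT.F2

/-!
# The one-parameter family
-/

set_option autoImplicit false
set_option linter.unusedSectionVars false

namespace Pool.Agent.V11307.MT

open Pool.Agent.V11175.Sh Pool.Agent.V11175.Sh.Sh Pool.Agent.V11175.Sh.H

section gen

variable {K : Type} [CommRing K]

/-- the family of identities -/
def PFd (s : K) (m : ℕ) : Prop :=
  (M (fun x => ka s x * kb s x) (rho m) * t (fun x => x.1 ^ m * kb s x) : H K) =
    (-1 : K) ^ m • (t (fun x => x.1 ^ m * ke s x) * M (fun x => ka s x * ke s x) (rho m)) -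
      M (fun x => ka s x * ke s x) (rho m) * t (fun x => x.2 ^ m * ka s x)

lemma PFd.mul {s : K} {m : ℕ} (h : PFd s m) (g : K × K → K) :
    (M (fun x => ka s x * (kb s x * g x)) (rho m) * t (fun x => x.1 ^ m * (kb s x * g x)) : H K) =
    (-1 : K) ^ m • (t (fun x => x.1 ^ m * (ke s x * g x)) * M (fun x => ka s x * (ke s x * g x)) (rho m)) -
      M (fun x => ka s x * (ke s x * g x)) (rho m) * t (fun x => x.2 ^ m * (ka s x * g x)) := by
  have h1 := congrArg (M g) h
  rw [map_mul, map_sub, map_smul, map_mul, map_mul, M_M, M_M, M_t, M_t, M_t] at h1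
  rw [Mc (g := fun x => ka s x * (kb s x * g x)) (h := fun x => g x * (ka s x * kb s x)) (fun x => by ring),
    Mc (g := fun x => ka s x * (ke s x * g x)) (h := fun x => g x * (ka s x * ke s x)) (fun x => by ring),
    tc (g := fun x => x.1 ^ m * (kb s x * g x)) (h := fun x => g x * (x.1 ^ m * kb s x)) (fun x => by ring),
    tc (g := fun x => x.1 ^ m * (ke s x * g x)) (h := fun x => g x * (x.1 ^ m * ke s x)) (fun x => by ring),
    tc (g := fun x => x.2 ^ m * (ka s x * g x)) (h := fun x => g x * (x.2 ^ m * ka s x)) (fun x => by ring)]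
  exact h1

/-- the quadratic consequence -/
lemma PFd.sq {s : K} {m : ℕ} (h : PFd s m) (g : K × K → K) :
    ((-1 : K) ^ m • (t (fun x => x.1 ^ m * (ke s x * g x)) * (M (fun x => ka s x * (ke s x * g x)) (rho m) *
      t (fun x => x.1 ^ m * (ke s x * g x)))) : H K) =
    - ((-1 : K) ^ m • (t (fun x => x.2 ^ m * (ka s x * g x)) * (t (fun x => x.2 ^ m * (ka s x * g x)) *
      M (fun x => ka s x * (ke s x * g x)) (rho m)))) +
    M (fun x => ka s x * (ke s x * g x)) (rho m) * (t (fun x => x.2 ^ m * (ka s x * g x)) *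
      t (fun x => x.1 ^ m * (ke s x * g x))) := by
  have h1 := h.mul g
  have h2 := L2 s (fun x => x.1 ^ m * g x)
  have h3 := lad' s m (fun x => ka s x * g x)
  have h4 := lad s m (fun x => ka s x * g x)
  rw [tc (g := fun x => kb s x * (x.1 ^ m * g x)) (h := fun x => x.1 ^ m * (kb s x * g x)) (fun x => by ring),
    tc (g := fun x => ke s x * (x.1 ^ m * g x)) (h := fun x => x.1 ^ m * (ke s x * g x)) (fun x => by ring),
    tc (g := fun x => ka s x * (x.1 ^ m * g x)) (h := fun x => x.1 ^ m * (ka s x * g x)) (fun x => by ring)] at h2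
  rw [Mc (g := fun x => kb s x * (ka s x * g x)) (h := fun x => ka s x * (kb s x * g x)) (fun x => by ring)] at h3
  rw [Mc (g := fun x => ke s x * (ka s x * g x)) (h := fun x => ka s x * (ke s x * g x)) (fun x => by ring)] at h4
  set ρ : H K := M (fun x => ka s x * (ke s x * g x)) (rho m)
  set σ : H K := M (fun x => ka s x * (kb s x * g x)) (rho m)
  set τ : H K := M (fun x => ka s x * (ka s x * g x)) (rho m)
  set G' : H K := t (fun x => x.1 ^ m * (ke s x * g x))
  set B' : H K := t (fun x => x.1 ^ m * (kb s x * g x))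
  set A' : H K := t (fun x => x.1 ^ m * (ka s x * g x))
  set α : H K := t (fun x => x.2 ^ m * (ka s x * g x))
  have e1 : ((-1 : K) ^ m • (G' * (ρ * G')) : H K) = (σ * B' + ρ * α) * G' := by
    rw [h1]; rw [sub_add_cancel, smul_mul_assoc, mul_assoc]
  rw [e1, add_mul, mul_assoc σ, h2, mul_neg, ← mul_assoc σ, h3, smul_mul_assoc, mul_assoc α, ← h4, mul_assoc]

end gen

open MvPolynomial

/-- the identity for squares at the ends of a run -/
lemma sqX (m : ℕ) (h : PFd (0 : R) m) :
    ((-1 : R) ^ m • (th m m * (G (rho m) * th m m)) : H R) =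
    - ((-1 : R) ^ m • (th m 0 * (th m 0 * G (rho m)))) +
      G (rho m) * (th m 0 * th m m + th m m * th m 0) := by
  rw [← sub_eq_zero]
  have hnat : ∀ a : H R, Nat' a → Nat' ((-1 : R) ^ m • a) := by
    intro a ha
    rcases neg_one_pow_eq_or R m with h1 | h1
    · rw [h1, one_smul]; exact ha
    · rw [h1, neg_smul, one_smul]; exact ha.neg
  apply inj_S
  · apply Nat'.sub
    · exact hnat _ ((nat_th _ _).mul ((nat_G (nat_rho _)).mul (nat_th _ _)))
    · exact ((hnat _ ((nat_th _ _).mul ((nat_th _ _).mul (nat_G (nat_rho _))))).neg).add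
        ((nat_G (nat_rho _)).mul (((nat_th _ _).mul (nat_th _ _)).add ((nat_th _ _).mul (nat_th _ _))))
  · have h1 := h.sq (fun _ => 1)
    have h2 := comm (K := R) m (fun x => x.2 ^ m) (fun x => x.1)
    have h3 := N0 (K := R) (fun x => x.2 ^ m)
    have ea : ∀ x : R × R, ka 0 x = x.2 := fun x => by simp [ka]
    have ee : ∀ x : R × R, ke 0 x = x.1 := fun x => by simp [ke]
    have e1 : S (G (rho m) : H R) = M (fun x => x.2 * x.1) (rho m) := by
      rw [S, G, M_M]; exact Mc (fun x => by ring) _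
    have e2 : S (th m m : H R) = t (fun x => x.1 ^ m * x.1) := by
      rw [th, S, M_t]; exact tc fun x => by simp [mul_comm]
    have e3 : S (th m 0 : H R) = t (fun x => x.1 * x.2 ^ m) := by
      rw [th, S, M_t]; exact tc fun x => by simp
    rw [Mc (g := fun x => ka (0 : R) x * (ke 0 x * 1)) (h := fun x => x.2 * x.1) (fun x => by rw [ea, ee]; ring),
      tc (g := fun x => x.1 ^ m * (ke (0 : R) x * 1)) (h := fun x => x.1 ^ m * x.1) (fun x => by rw [ee]; ring),
      tc (g := fun x => x.2 ^ m * (ka (0 : R) x * 1)) (h := fun x => x.2 * x.2 ^ m) (fun x => by rw [ea]; ring)] at h1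
    rw [tc (g := fun x => x.2 ^ m * x.1) (h := fun x => x.1 * x.2 ^ m) (fun x => by ring)] at h2
    rw [map_sub, map_smul, map_add, map_neg, map_smul, map_mul S, map_mul S, map_mul S, map_mul S, map_mul S,
      map_add, map_mul S, map_mul S, e1, e2, e3]
    set ρ : H R := M (fun x => x.2 * x.1) (rho m)
    set Z : H R := t (fun x => x.1 ^ m * x.1)
    set A : H R := t (fun x => x.2 * x.2 ^ m)
    set A1 : H R := t (fun x => x.1 * x.2 ^ m)
    have h2' : ρ * ((A - A1) * Z - Z * A1) = (-1 : R) ^ m • ((A * A - A1 * A1) * ρ) := by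
      have e4 : (A - A1) * A1 - A1 * A1 = A * A - A1 * A1 := by
        rw [sub_mul, h3]; abel
      rw [← e4, h2, smul_smul, ← mul_pow]; simp
    rw [h1]
    have e5 : ρ * (A * Z) = ρ * ((A - A1) * Z - Z * A1) + ρ * (A1 * Z + Z * A1) := by noncomm_ring
    rw [e5, h2', sub_mul, smul_sub, mul_assoc, mul_assoc]
    abel

lemma smul_cancel {s : R} (hs : s ≠ 0) {w : H R} (h : s • w = 0) : w = 0 := by
  refine Sh.ext' fun l => ?_
  have h1 : ap (s • w) l = 0 := by rw [h]; rfl
  rw [Sh.smul_apply] at h1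
  exact (mul_eq_zero.1 h1).resolve_left hs

/-- the induction step -/
lemma step (s : R) (hs : s ≠ 0) (m : ℕ) (h : PFd s m) (h0 : PFd (0 : R) m) : PFd s (m + 1) := by
  have hA := h.mul (fun x => x.2)
  have hB := h.sq (fun x => x.2)
  have hC := congrArg (M (fun x => ka s x * ke s x)) (sqX m h0)
  have hD := comm (K := R) m (fun x => x.2 ^ m * ka s x) (fun x => ka s x * ke s x)
  have hE := L3 s (fun x : R × R => x.2 ^ m * ka s x)
  have hL := L1 s (fun x : R × R => x.1 ^ m * kb s x)
  rw [PFd, rhoS, rhoS]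
  have e1 : M (fun x => ka s x * ke s x) (G (rho m) : H R) = M (fun x => ka s x * (ke s x * x.2)) (rho m) := by
    rw [G, M_M]; exact Mc (fun x => by ring) _
  have e2 : M (fun x => ka s x * ke s x) (th m m : H R) = t (fun x => x.1 ^ m * (ka s x * ke s x)) := by
    rw [th, M_t]; exact tc fun x => by simp [mul_comm]
  have e3 : M (fun x => ka s x * ke s x) (th m 0 : H R) = t (fun x => ke s x * (x.2 ^ m * ka s x)) := by
    rw [th, M_t]; exact tc fun x => by simp; ring
  rw [map_smul, map_add, map_neg, map_smul, map_mul (M _), map_mul (M _), map_mul (M _), map_mul (M _),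
    map_mul (M _), map_add, map_mul (M _), map_mul (M _), e1, e2, e3] at hC
  rw [Mc (g := fun x => x.2 * (ka s x * kb s x)) (h := fun x => ka s x * (kb s x * x.2)) (fun x => by ring),
    Mc (g := fun x => x.2 * (ka s x * ke s x)) (h := fun x => ka s x * (ke s x * x.2)) (fun x => by ring)]
  rw [Mc (g := fun x => x.2 * (ka s x * ke s x)) (h := fun x => ka s x * (ke s x * x.2)) (fun x => by ring),
    tc (g := fun x => x.2 ^ m * (ka s x * ke s x)) (h := fun x => ke s x * (x.2 ^ m * ka s x)) (fun x => by ring)] at hD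
  rw [tc (g := fun x => ka s x * (x.1 ^ m * kb s x)) (h := fun x => x.1 ^ m * (ka s x * kb s x)) (fun x => by ring),
    tc (g := fun x => x.1 * (x.1 ^ m * kb s x)) (h := fun x => x.1 ^ (m + 1) * kb s x) (fun x => by ring),
    tc (g := fun x => x.2 * (x.1 ^ m * kb s x)) (h := fun x => x.1 ^ m * (kb s x * x.2)) (fun x => by ring)] at hL
  rw [tc (g := fun x => x.2 ^ m * (ka s x * x.2)) (h := fun x => x.2 * (x.2 ^ m * ka s x)) (fun x => by ring)] at hA hB
  rw [tc (g := fun x => x.2 ^ (m + 1) * ka s x) (h := fun x => x.2 * (x.2 ^ m * ka s x)) (fun x => by ring)]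
  have hF : (t (fun x => ke s x * (x.2 ^ m * ka s x)) : H R) = s • t (fun x => x.2 * (x.2 ^ m * ka s x)) +
      (1 - s) • t (fun x => x.1 * (x.2 ^ m * ka s x)) := by
    rw [← t_smul, ← t_smul, ← t_add]; exact tc fun x => by simp only [ke]; ring
  have hG : (s • t (fun x => ke s x * (x.1 ^ m * kb s x)) : H R) =
      (1 - s + s ^ 2) • t (fun x => x.1 ^ m * (ke s x * x.2)) - t (fun x => x.1 ^ m * (ka s x * ke s x)) := by
    rw [← t_smul, ← t_smul, ← t_sub]; exact tc fun x => by simp only [ke, ka, kb]; ring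
  have hH : (s • t (fun x => x.1 ^ (m + 1) * ke s x) : H R) =
      t (fun x => x.1 ^ m * (ke s x * x.2)) - t (fun x => x.1 ^ m * (ka s x * ke s x)) := by
    rw [← t_smul, ← t_sub]; exact tc fun x => by simp only [ke, ka]; ring
  rw [mul_assoc, hL]
  rw [← sub_eq_zero]
  apply smul_cancel hs
  set ρ : H R := M (fun x => ka s x * (ke s x * x.2)) (rho m)
  set σ : H R := M (fun x => ka s x * (kb s x * x.2)) (rho m)
  set B' : H R := t (fun x => x.1 ^ m * (kb s x * x.2))
  set G' : H R := t (fun x => x.1 ^ m * (ke s x * x.2))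
  set H' : H R := t (fun x => x.1 ^ m * (ka s x * ke s x))
  set α : H R := t (fun x => x.2 * (x.2 ^ m * ka s x))
  set α1 : H R := t (fun x => x.1 * (x.2 ^ m * ka s x))
  set κ : H R := t (fun x => ke s x * (x.2 ^ m * ka s x))
  set E' : H R := t (fun x => ke s x * (x.1 ^ m * kb s x))
  set G1 : H R := t (fun x => x.1 ^ (m + 1) * ke s x)
  have k1 : s • (σ * (B' * E')) = ((-1 : R) ^ m • (G' * ρ) - ρ * α) * ((1 - s + s ^ 2) • G' - H') := by
    rw [← hG, ← hA, mul_smul_comm, mul_assoc]
  have k2 : s • (G1 * (ρ * H')) = (G' - H') * (ρ * H') := by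
    rw [← hH, smul_mul_assoc]
  have hD' : ρ * ((α - α1) * H' - H' * α1) = (-1 : R) ^ m • (((α - α1) * κ - κ * α1) * ρ) := by
    rw [hD, smul_smul, ← mul_pow]; simp
  have hF1 : (1 - s) • (α - α1) = α - κ := by rw [hF]; module
  have hF2 : (1 - s) • α1 = κ - s • α := by rw [hF]; module
  have k3 : ρ * ((α - κ) * H' - H' * (κ - s • α)) =
      (-1 : R) ^ m • (((α - κ) * κ - κ * (κ - s • α)) * ρ) := by
    have a1 : ρ * ((α - κ) * H' - H' * (κ - s • α)) = (1 - s) • (ρ * ((α - α1) * H' - H' * α1)) := by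
      rw [← hF1, ← hF2]
      simp only [smul_mul_assoc, mul_smul_comm, ← smul_sub]
    have a2 : ((α - κ) * κ - κ * (κ - s • α)) * ρ = (1 - s) • (((α - α1) * κ - κ * α1) * ρ) := by
      have b1 : (α - κ) * κ - κ * (κ - s • α) = (1 - s) • ((α - α1) * κ - κ * α1) := by
        rw [← hF2, ← hF1]
        simp only [smul_mul_assoc, mul_smul_comm, ← smul_sub]
      rw [b1, smul_mul_assoc]
    rw [a1, a2, hD', smul_comm]
  have k4 : (α * κ + s • (κ * α) - κ * κ) * ρ = ((1 - s + s ^ 2) • (α * α)) * ρ := by rw [hE]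
  simp only [mul_add, add_mul, mul_sub, sub_mul, smul_mul_assoc, mul_smul_comm, mul_assoc] at k1 k2 k3 k4 hC hB ⊢
  linear_combination (norm := module) k1 + ((-1 : R) ^ m) • k2 + (1 - s + s ^ 2) • hB - hC + k3 +
    ((-1 : R) ^ m) • k4

end Pool.Agent.V11307.MT
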