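import Mathlib
import Pool.Agent.V11307.MT.F3

/-!
# The family at every parameter, and the difference of a run
-/

set_option autoImplicit false
set_option linter.unusedSectionVars false

namespace Pool.Agent.V11307.MT

open Pool.Agent.V11175.Sh Pool.Agent.V11175.Sh.Sh Pool.Agent.V11175.Sh.H MvPolynomial

/-- `b` is the image of `a` under `φ` -/
def Rl (φ : R →ₐ[ℚ] R) (a b : H R) : Prop := ∀ c : List (R × R), ap b (c.map (Prod.map φ φ)) = φ (ap a c)

lemma Rl.mul {φ : R →ₐ[ℚ] R} {a b a' b' : H R} (h : Rl φ a b) (h' : Rl φ a' b') : Rl φ (a * a') (b * b') := by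
  intro c
  exact mulF_nat fh (φ : R →+* R) (Prod.map φ φ) fh (fun x y => by simp [fh]) c (ap a) (ap a') (ap b) (ap b')
    (fun l => h l) (fun l => h' l)

lemma Rl.sub {φ : R →ₐ[ℚ] R} {a b a' b' : H R} (h : Rl φ a b) (h' : Rl φ a' b') : Rl φ (a - a') (b - b') := by
  intro c
  rw [Sh.sub_apply, Sh.sub_apply, h, h', map_sub]

lemma Rl.sgn {φ : R →ₐ[ℚ] R} {a b : H R} (h : Rl φ a b) (m : ℕ) :
    Rl φ ((-1 : R) ^ m • a) ((-1 : R) ^ m • b) := by
  intro c
  rw [Sh.smul_apply, Sh.smul_apply, h, map_mul, map_pow, map_neg, map_one]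

lemma Rl.M {φ : R →ₐ[ℚ] R} {a b : H R} (h : Rl φ a b) {g g' : R × R → R}
    (hg : ∀ x, g' (Prod.map φ φ x) = φ (g x)) : Rl φ (Sh.M g a) (Sh.M g' b) := by
  intro c
  rw [M_apply, M_apply, h, map_mul, map_list_prod, List.map_map, List.map_map]
  congr 2
  apply List.map_congr_left
  intro x _
  exact hg x

lemma Rl.t {φ : R →ₐ[ℚ] R} {g g' : R × R → R}
    (hg : ∀ x, g' (Prod.map φ φ x) = φ (g x)) : Rl φ (Sh.t g : H R) (Sh.t g') := by
  intro c
  match c with
  | [] => rw [List.map_nil, t_nil, t_nil, map_zero]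
  | [x] => rw [List.map_cons, List.map_nil, t_single, t_single, hg]
  | x :: y :: c => rw [List.map_cons, List.map_cons, t_cons2, t_cons2, map_zero]

lemma Rl_rho (φ : R →ₐ[ℚ] R) (m : ℕ) : Rl φ (rho m) (rho m) := fun c => nat_rho m φ c

lemma ka_nat (φ : R →ₐ[ℚ] R) (s : R) (x : R × R) : ka (φ s) (Prod.map φ φ x) = φ (ka s x) := by
  simp [ka]
lemma kb_nat (φ : R →ₐ[ℚ] R) (s : R) (x : R × R) : kb (φ s) (Prod.map φ φ x) = φ (kb s x) := by
  simp [kb]
lemma ke_nat (φ : R →ₐ[ℚ] R) (s : R) (x : R × R) : ke (φ s) (Prod.map φ φ x) = φ (ke s x) := by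
  simp [ke]

/-- the difference of the two sides -/
noncomputable def Wd (s : R) (m : ℕ) : H R :=
  (M (fun x => ka s x * kb s x) (rho m) * t (fun x => x.1 ^ m * kb s x)) -
    ((-1 : R) ^ m • (t (fun x => x.1 ^ m * ke s x) * M (fun x => ka s x * ke s x) (rho m)) -
      M (fun x => ka s x * ke s x) (rho m) * t (fun x => x.2 ^ m * ka s x))

lemma Wd_nat (φ : R →ₐ[ℚ] R) (s : R) (m : ℕ) : Rl φ (Wd s m) (Wd (φ s) m) := by
  unfold Wd
  refine Rl.sub (Rl.mul (Rl.M (Rl_rho φ m) fun x => ?_) (Rl.t fun x => ?_))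
    (Rl.sub (Rl.sgn (Rl.mul (Rl.t fun x => ?_) (Rl.M (Rl_rho φ m) fun x => ?_)) m)
      (Rl.mul (Rl.M (Rl_rho φ m) fun x => ?_) (Rl.t fun x => ?_)))
  · rw [ka_nat, kb_nat, map_mul]
  · rw [kb_nat, map_mul, map_pow]; rfl
  · rw [ke_nat, map_mul, map_pow]; rfl
  · rw [ka_nat, ke_nat, map_mul]
  · rw [ka_nat, ke_nat, map_mul]
  · rw [ka_nat, map_mul, map_pow]; rfl

/-- kill one variable -/
noncomputable def kl (N : ℕ) : R →ₐ[ℚ] R := aeval (fun i => if i = N then 0 else X i)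

lemma kl_gen (N n : ℕ) (h : 2 * n ≤ N) : (gen n).map (Prod.map (kl N) (kl N)) = gen n := by
  induction n with
  | zero => rfl
  | succ n ih =>
    rw [gen, List.map_cons, ih (by omega)]
    congr 1
    apply Prod.ext
    · simp only [Prod.map_fst, kl, aeval_X]
      rw [if_neg (by omega)]
    · simp only [Prod.map_snd, kl, aeval_X]
      rw [if_neg (by omega)]

lemma Wd_zero (m : ℕ) (h : ∀ s : R, s ≠ 0 → Wd s m = 0) : Wd 0 m = 0 := by
  refine Sh.ext' fun c => ?_
  rw [Sh.zero_apply]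
  obtain ⟨φ, hφ⟩ := gen_spec c.length c rfl
  have h1 := Wd_nat φ 0 m (gen c.length)
  rw [map_zero, hφ] at h1
  rw [h1]
  have h2 := Wd_nat (kl (2 * c.length)) (X (2 * c.length)) m (gen c.length)
  have h3 : kl (2 * c.length) (X (2 * c.length)) = 0 := by rw [kl, aeval_X, if_pos rfl]
  rw [h3, kl_gen _ _ le_rfl, h _ (X_ne_zero _), Sh.zero_apply, map_zero] at h2
  rw [h2, map_zero]

theorem PF_all (m : ℕ) : ∀ s : R, PFd s m := by
  induction m with
  | zero =>
    intro s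
    rw [PFd, M_rho0, M_rho0, pow_zero, one_smul, one_mul, one_mul, mul_one, ← t_sub]
    exact tc fun x => by simp only [ka, kb, ke]; ring
  | succ m ih =>
    have h1 : ∀ s : R, s ≠ 0 → PFd s (m + 1) := fun s hs => step s hs m (ih s) (ih 0)
    intro s
    by_cases hs : s = 0
    · subst hs
      have h2 := Wd_zero (m + 1) (fun s hs => by rw [Wd, sub_eq_zero]; exact h1 s hs)
      rw [Wd, sub_eq_zero] at h2
      exact h2
    · exact h1 s hs

/-- **the difference of a run**: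
`D (t_0 ... t_m) = (-1)^m t_{m+1} (t_1 ... t_m) - (t_1 ... t_m) t_0` -/
theorem D_run (m : ℕ) : (D (rho (m + 1)) : H R) =
    (-1 : R) ^ m • (th (m + 1) (m + 1) * S (G (rho m))) - S (G (rho m)) * th (m + 1) 0 := by
  have h := PF_all m 0
  rw [PFd] at h
  have ea : ∀ x : R × R, ka 0 x = x.2 := fun x => by simp [ka]
  have ee : ∀ x : R × R, ke 0 x = x.1 := fun x => by simp [ke]
  have eb : ∀ x : R × R, kb 0 x = x.1 - x.2 := fun x => by simp [kb]; ring
  rw [D, rhoS]
  have e1 : S (G (rho m) : H R) = M (fun x => ka 0 x * ke 0 x) (rho m) := by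
    rw [S, G, M_M]; exact Mc (fun x => by rw [ea, ee]; ring) _
  have e2 : (th (m + 1) (m + 1) : H R) = t (fun x => x.1 ^ m * ke 0 x) := by
    rw [th]; exact tc fun x => by rw [ee]; simp [pow_succ]
  have e3 : (th (m + 1) 0 : H R) = t (fun x => x.2 ^ m * ka 0 x) := by
    rw [th]; exact tc fun x => by rw [ea]; simp [pow_succ]
  rw [e1, e2, e3, ← h]
  congr 1
  · exact Mc (fun x => by rw [ea, eb]) _
  · exact tc fun x => by rw [eb]

end Pool.Agent.V11307.MT
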