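import Mathlib
import Pool.Agent.V11175.Sh11
import Pool.Agent.V11307.MT.F4

/-!
# The word `t_0 ... t_n t_0 ... t_{n-1}`
-/

set_option autoImplicit false
set_option linter.unusedSectionVars false

namespace Pool.Agent.V11307.MT

open Pool.Agent.V11175 Pool.Agent.V11175.Sh Pool.Agent.V11175.Sh.Sh Pool.Agent.V11175.Sh.H MvPolynomial

lemma GG (m : ℕ) : (G (G (rho (m + 1))) : H R) = th (m + 2) 0 * G (S (G (rho m))) := by
  rw [rho_succ', map_mul, map_mul, G_th m 0 (by omega), G_th (m + 1) 0 (by omega), GS]

/-- `(t_0 ... t_n) (t_0 ... t_{n-1}) = (t_1 ... t_n)² t_0` -/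
theorem word_eq (n : ℕ) : (rho (n + 1) * G (rho n) : H R) = S (Om n) * th n 0 := by
  induction n with
  | zero => simp [Om, rho]
  | succ n ih =>
    rw [← sub_eq_zero]
    apply U0 (n + 1)
    · apply sub_mem
      · have e : G (rho (n + 1) : H R) = ((List.range (n + 1)).map (fun a => th (n + 1) a)).prod := by
          rw [rho_eq, map_list_prod, List.map_map]
          congr 1
          apply List.map_congr_left
          intro a ha
          rw [List.mem_range] at ha
          exact G_th n a (by omega)
        have h := PBW.mul_prod_mem (rel (K := R) (n + 1)) (List.range (n + 1 + 1) ++ List.range (n + 1)) (by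
            intro a ha
            simp only [List.mem_append, List.mem_range] at ha
            omega) _ _ (PBW.one_mem_Md _)
        rw [one_mul, List.map_append, List.prod_append, ← e, ← rho_eq] at h
        have hdeg : (0 + (((List.range (n + 1 + 1) ++ List.range (n + 1)).length : ℕ) : ℤ)) =
            2 * ((n + 1 : ℕ) : ℤ) + 1 := by
          simp only [List.length_append, List.length_range]
          push_cast
          ring
        rw [hdeg] at h
        exact h
      · have e : S (rho (n + 1) : H R) = (((List.range (n + 1)).map (fun a => a + 1)).map (fun a => th (n + 1) a)).prod := by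
          rw [rho_eq, map_list_prod, List.map_map, List.map_map]
          congr 1
          apply List.map_congr_left
          intro a _
          exact S_th n a
        have h := PBW.mul_prod_mem (rel (K := R) (n + 1)) ((List.range (n + 1)).map (fun a => a + 1) ++
          (List.range (n + 1)).map (fun a => a + 1)) (by
            intro a ha
            simp only [List.mem_append, List.mem_map, List.mem_range, or_self] at ha
            omega) _ _ (PBW.one_mem_Md _)
        rw [one_mul, List.map_append, List.prod_append, ← e, ← map_mul] at h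
        have h' := PBW.mul_mem (rel (K := R) (n + 1)) h 0 (by omega)
        have hdeg : (0 + ((((List.range (n + 1)).map (fun a => a + 1) ++
            (List.range (n + 1)).map (fun a => a + 1)).length : ℕ) : ℤ) + 1) = 2 * ((n + 1 : ℕ) : ℤ) + 1 := by
          simp only [List.length_append, List.length_map, List.length_range]
          push_cast
          ring
        rw [hdeg] at h'
        exact h'
    · have hD := D_run (n + 1)
      have e1 : e0 (rho (n + 1 + 1) * G (rho (n + 1)) : H R) =
          (-1 : R) ^ (n + 1) • (th (n + 2) (n + 2) * S (G (rho (n + 1) * G (rho n)))) := by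
        rw [e0_mul, e0_G, e0_rho, e0_rho, hD, GG, sub_mul, smul_mul_assoc, map_mul G, map_mul S, ← GS (G (rho n))]
        simp only [mul_assoc]
        abel
      have e2 : e0 (S (Om (n + 1)) * th (n + 1) 0 : H R) = D (S (Om (n + 1))) := by
        rw [e0_mul, e0_S, e0_th0]; simp
      have e3 : D (Om (n + 1) : H R) = (-1 : R) ^ (n + 1) • (th (n + 1) (n + 1) * G (S (Om n) * th n 0)) := by
        have hO := (Om_eq_tau n).1
        rw [(Om_eq_tau (n + 1)).1, hO, tau_succ', map_mul D, map_mul D, H.D_sq, DG, neg_mul, mul_assoc,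
          ← G_th n n le_rfl, ← map_mul G, lead, map_smul, mul_smul_comm, pow_succ, mul_neg_one, neg_smul]
      rw [map_sub, e1, e2, DS, e3, ih, map_smul, map_mul S, S_th, sub_self]

lemma anti_Om (m : ℕ) : Anti (Om m : H R) := by
  have h : ∀ m, Anti (rho m : H R) := by
    intro m
    induction m with
    | zero => exact anti_one
    | succ m ih => exact (ih.M _).mul (anti_t _)
  exact (h m).mul (h m)

lemma nat_e1 {a : H R} (h : Nat' a) : Nat' (e1 a) := by
  intro φ c
  have h1 := h φ ((1, 1) :: c)
  rw [List.map_cons] at h1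
  have h2 : (Prod.map φ φ ((1 : R), (1 : R))) = (1, 1) := by simp
  rw [h2] at h1
  exact h1

lemma Gm_len {n : ℕ} {a : H R} (ha : Len n a) : Gm a = (-1 : R) ^ n • G a := by
  refine Sh.ext' fun l => ?_
  rw [Gm, G, M_apply, Sh.smul_apply, M_apply]
  by_cases hl : l.length = n
  · subst hl
    have : ∀ l : List (R × R), (l.map (fun x => - x.2)).prod = (-1) ^ l.length * (l.map (fun x => x.2)).prod := by
      intro l
      induction l with
      | nil => simp
      | cons x l ih => rw [List.map_cons, List.prod_cons, ih, List.map_cons, List.prod_cons, List.length_cons]; ring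
    rw [this]; ring
  · rw [ha l hl]; ring

lemma len_Om (m : ℕ) : Len (m + m) (Om m : H R) := (len_rho m).mul (len_rho m)

lemma e1_Om (m : ℕ) : e1 (Om (m + 1) : H R) = G (D (Om m)) * D (th m m) := by
  have h1 : Gm (D (Om m) : H R) = G (D (Om m)) := by
    have hl : Len (m + m) (D (Om m) : H R) := (len_Om m).M _
    rw [Gm_len hl, ← two_mul, pow_mul]; simp
  have h2 : Gm (th m m : H R) = - G (th m m) := by
    rw [Gm_len (len_th m m)]; simp
  rw [Om_succ, e1_mul, e1_D, zero_mul, zero_add, h1, e1_mul, e1_th, h2, one_mul, mul_one, S_th,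
    G_th m m le_rfl, D_th m m le_rfl]
  congr 1
  abel

lemma ei_Om (m : ℕ) : ei (Om (m + 1) : H R) = - ((-1 : R) ^ m • G (S (Om m) * th m 0)) := by
  rw [(Om_eq_tau (m + 1)).1, tau_succ', ei_mul, ei_G, mul_zero, add_zero, ei_sq, neg_mul]
  have h : D (G (tau m) : H R) = G (D (tau m)) := DG _
  rw [h, ← map_mul G, lead, map_smul, (Om_eq_tau m).1]

/-- evaluation at one of `(t_1 ... t_m)² t_0` -/
theorem e1_word (m : ℕ) : e1 (S (Om m) * th m 0 : H R) = (-1 : R) ^ m • D (S (Om m)) := by
  have hnat : ∀ a : H R, Nat' a → Nat' ((-1 : R) ^ m • a) := by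
    intro a ha
    rcases neg_one_pow_eq_or R m with h1 | h1
    · rw [h1, one_smul]; exact ha
    · rw [h1, neg_smul, one_smul]; exact ha.neg
  rw [← sub_eq_zero]
  apply inj_G
  · exact (nat_e1 ((nat_S (nat_Om m)).mul (nat_th _ _))).sub (hnat _ (nat_D (nat_S (nat_Om m))))
  · have h1 : e1 (ei (Om (m + 1) : H R)) = - ei (e1 (Om (m + 1))) := anti_Om (m + 1) _ _
    have hS : Sm (G (D (Om m)) : H R) = S (G (D (Om m))) := by
      have hl : Len (m + m) (G (D (Om m)) : H R) := ((len_Om m).M _).M _
      rw [Sm_len hl, ← two_mul, pow_mul]; simp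
    rw [ei_Om, e1_Om, ei_mul, ei_G, zero_mul, zero_add, hS, ei_D, ei_thN, map_one, mul_one, map_neg, map_smul,
      e1_G, neg_inj] at h1
    have h2 : G (e1 (S (Om m) * th m 0) : H R) = (-1 : R) ^ m • S (G (D (Om m))) := by
      rw [← h1, smul_smul, ← mul_pow]; simp
    rw [map_sub, h2, map_smul, DS, GS, sub_self]

lemma res_e1 (a : H R) : res (e1 a) = A.d (res a) := rfl

lemma res_smul (r : R) (a : H R) : res (r • a) = r • res a := rfl

lemma A_d_S (a : A R) : A.d (A.S a) = A.S (A.d a) := by
  rw [A.d, A.S, E_M, one_smul]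

/-- the derivative of `t_1 ... t_{n+1} t_1 ... t_n` -/
theorem d_word (n : ℕ) : A.d (A.run 1 (n + 1) * A.run 1 n : A R) =
    A.D ((-1 : R) ^ n • (A.run 2 n * A.run 2 n)) := by
  have h1 : (A.run 0 (n + 1) * A.run 0 n : A R) = res (S (Om n) * th n 0) := by
    rw [← word_eq, map_mul, res_rho, res_G, res_rho]
  have h2 : A.d (A.run 0 (n + 1) * A.run 0 n : A R) = (-1 : R) ^ n • A.D (A.S (A.run 0 n * A.run 0 n)) := by
    rw [h1, ← res_e1, e1_word, res_smul, res_D, res_S, Om, map_mul res, res_rho]
  have h3 : (A.run 1 (n + 1) * A.run 1 n : A R) = A.S (A.run 0 (n + 1) * A.run 0 n) := by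
    rw [map_mul, A.S_run, A.S_run]
  rw [h3, A_d_S, h2, map_smul, map_smul, map_mul A.S, A.S_run, ← A.DS, map_mul A.S, A.S_run]

end Pool.Agent.V11307.MT
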